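import Pool.Agent.H38.O1.N3
import Pool.Agent.H25.NM.End

set_option autoImplicit false

/-!
Automorphic loops in which `th(a, b)` fixes `b` for all `a`, `b` (K7): the relation
`(x y) z = x (y z)` is totally symmetric.
-/

namespace ALoop

open Equiv

variable {Q : Type*} {G : Subgroup (Perm Q)} {L : Q → Perm Q} {J : Perm Q} {e : Q}

/-- `(x y) z = x (y z)` -/
def A3 (L : Q → Perm Q) (x y z : Q) : Prop := L (L x y) z = L x (L y z)

/-- `L_(x y)⁻¹ L_x L_y` -/
def Ph (L : Q → Perm Q) (x y : Q) : Perm Q := (L (L x y))⁻¹ * L x * L y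

/-- `x` and `y` are perpendicular -/
def Pp (L : Q → Perm Q) (x y : Q) : Prop := ∀ z, A3 L x y z

namespace AL0

theorem L_e61 (h : AL0 G L J e) : L e = 1 := by
  ext y
  have h2 := h.Rt_app y e
  rw [h.Rt_e] at h2
  rw [← h2, Perm.one_apply]

theorem a3_th (h : AL0 G L J e) (x y z : Q) : A3 L x y z ↔ Th L J x z y = y := by
  unfold A3 Th
  simp only [Perm.mul_apply]
  rw [Perm.inv_eq_iff_eq, Perm.inv_eq_iff_eq, h.Rt_app, h.Rt_app]
  exact eq_comm

theorem Ph_mem (h : AL0 G L J e) (x y : Q) : Ph L x y ∈ G :=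
  G.mul_mem (G.mul_mem (G.inv_mem (h.memL _)) (h.memL _)) (h.memL _)

theorem Ph_e (h : AL0 G L J e) (x y : Q) : Ph L x y e = e := by
  unfold Ph
  simp only [Perm.mul_apply]
  rw [h.Le, Perm.inv_eq_iff_eq, h.Le]

theorem a3_ph (_h : AL0 G L J e) (x y z : Q) : A3 L x y z ↔ Ph L x y z = z := by
  unfold A3 Ph
  simp only [Perm.mul_apply]
  rw [Perm.inv_eq_iff_eq]
  exact eq_comm

theorem a3_rh (h : AL0 G L J e) (x y z : Q) : A3 L x y z ↔
    ((Rt L J (L y z))⁻¹ * Rt L J z * Rt L J y) x = x := by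
  unfold A3
  simp only [Perm.mul_apply]
  rw [Perm.inv_eq_iff_eq, h.Rt_app, h.Rt_app, h.Rt_app]

theorem a3_J2 (h : AL0 G L J e) {x y z : Q} (ha : A3 L x y z) : A3 L x (J y) z := by
  rw [h.a3_th] at ha ⊢
  exact h.fixJ (h.Th_mem _ _) (h.Th_e _ _) ha

theorem a3_J3 (h : AL0 G L J e) {x y z : Q} (ha : A3 L x y z) : A3 L x y (J z) := by
  rw [h.a3_ph] at ha ⊢
  exact h.fixJ (h.Ph_mem _ _) (h.Ph_e _ _) ha

theorem a3_J1 (h : AL0 G L J e) {x y z : Q} (ha : A3 L x y z) : A3 L (J x) y z := by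
  rw [h.a3_rh] at ha ⊢
  obtain ⟨h1, h2⟩ := h.Nsp_r y z
  exact h.fixJ h1 h2 ha

theorem a3_inv (h : AL0 G L J e) {x y z : Q} (ha : A3 L x y z) : A3 L (J z) (J y) (J x) := by
  unfold A3 at *
  rw [← h.aaip y z, ← h.aaip x y, ← h.aaip, ← h.aaip, ha]

theorem a3_rev (h : AL0 G L J e) {x y z : Q} (ha : A3 L x y z) : A3 L z y x := by
  have h1 := h.a3_J1 (h.a3_J2 (h.a3_J3 (h.a3_inv ha)))
  rwa [h.JJ, h.JJ, h.JJ] at h1

theorem Th_conj61 (h : AL0 G L J e) {g : Perm Q} (hg : g ∈ G) (he : g e = e) (a b : Q) :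
    g * Th L J a b * g⁻¹ = Th L J (g a) (g b) := by
  have hL : ∀ x, L (g x) = g * L x * g⁻¹ := fun x => (h.equi g hg he x).symm
  have hJ := h.comJ g hg he
  have hJ' : J * g⁻¹ = g⁻¹ * J := by
    rw [eq_inv_mul_iff_mul_eq, ← mul_assoc, hJ]; group
  have hJx : ∀ x, J (g x) = g (J x) := by
    intro x
    have := congrArg (fun p : Perm Q => p x) hJ
    simpa using this.symm
  have hR : Rt L J (g b) = g * Rt L J b * g⁻¹ := by
    unfold Rt
    rw [hJx, hL]
    calc J * (g * L (J b) * g⁻¹) * J = (J * g) * L (J b) * (g⁻¹ * J) := by group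
      _ = (g * J) * L (J b) * (J * g⁻¹) := by rw [hJ, hJ']
      _ = _ := by group
  unfold Th
  rw [hR, hL]
  group

theorem Th_com61 (h : AL0 G L J e) {g : Perm Q} (hg : g ∈ G) (he : g e = e) {a b : Q}
    (ha : g a = a) (hb : g b = b) : g * Th L J a b = Th L J a b * g := by
  have h1 := h.Th_conj61 hg he a b
  rw [ha, hb, mul_inv_eq_iff_eq_mul] at h1
  exact h1

section

variable (k : ∀ a b, Th L J a b b = b)

include k

theorem k_RR (h : AL0 G L J e) (b : Q) : Rt L J b * Rt L J (J b) = 1 := by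
  ext a
  have h1 : A3 L a (J b) b := by
    rw [h.a3_th]
    exact h.fixJ (h.Th_mem _ _) (h.Th_e _ _) (k a b)
  unfold A3 at h1
  rw [h.JL, h.Le] at h1
  rw [Perm.mul_apply, h.Rt_app, h.Rt_app, h1, Perm.one_apply]

theorem k_R (h : AL0 G L J e) (b : Q) : Rt L J (J b) = (Rt L J b)⁻¹ :=
  (inv_eq_of_mul_eq_one_right (h.k_RR k b)).symm

theorem k_L (h : AL0 G L J e) (b : Q) : L (J b) = (L b)⁻¹ := by
  have h1 := h.k_R k b
  have h2 := h.JRJ b
  rw [← h2]
  have h3 : L b = J * Rt L J (J b) * J := by rw [h.JRJ, h.JJ]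
  rw [h3, h1, mul_inv_rev, mul_inv_rev, inv_inv, h.Jinv]; group

theorem k_aa (h : AL0 G L J e) (a b : Q) : A3 L a b b := by
  rw [h.a3_th]; exact k a b

theorem k_ab (h : AL0 G L J e) (a b : Q) : A3 L a a b := h.a3_rev (h.k_aa k b a)

omit k in
theorem k_aba (h : AL0 G L J e) (a b : Q) : A3 L a b a := by
  unfold A3
  have h1 := congrArg (fun p : Perm Q => p b) (h.flex a)
  simp only [Perm.mul_apply] at h1
  rw [h.Rt_app, h.Rt_app] at h1
  exact h1.symm

theorem k_fst (h : AL0 G L J e) (a b : Q) : Th L J a b a = a := by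
  rw [← h.a3_th]; exact h.k_ab k a b

theorem k_swap (h : AL0 G L J e) {x y z : Q} (ha : A3 L x y z) : A3 L y x z := by
  obtain ⟨g, hg⟩ : ∃ g, g = Ph L (J y) (J x) := ⟨_, rfl⟩
  have hgG : g ∈ G := by rw [hg]; exact h.Ph_mem _ _
  have hge : g e = e := by rw [hg]; exact h.Ph_e _ _
  have hgx : g x = x := by
    have h1 : g (J x) = J x := by rw [hg, ← h.a3_ph]; exact h.k_aa k _ _
    have h2 := h.fixJ hgG hge h1
    rwa [h.JJ] at h2
  have hgy : g y = y := by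
    have h1 : g (J y) = J y := by rw [hg, ← h.a3_ph]; exact h.k_aba _ _
    have h2 := h.fixJ hgG hge h1
    rwa [h.JJ] at h2
  have hp : g (L (L x y) z) = L (L x y) z := by
    rw [hg, ← h.a3_ph]
    unfold A3
    rw [← h.aaip, h.k_L k, h.k_L k, h.k_L k]
    nth_rewrite 2 [show L (L x y) z = L x (L y z) from ha]
    rw [inv_apply', inv_apply', inv_apply']
  rw [h.aut hgG hge, h.aut hgG hge, hgx, hgy] at hp
  have hz : g z = z := (L (L x y)).injective hp
  rw [hg, ← h.a3_ph] at hz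
  have h1 := h.a3_J1 (h.a3_J2 hz)
  rwa [h.JJ, h.JJ] at h1

theorem k_132 (h : AL0 G L J e) {x y z : Q} (ha : A3 L x y z) : A3 L x z y :=
  h.a3_rev (h.k_swap k (h.a3_rev ha))

theorem k_231 (h : AL0 G L J e) {x y z : Q} (ha : A3 L x y z) : A3 L y z x :=
  h.k_132 k (h.k_swap k ha)

theorem k_312 (h : AL0 G L J e) {x y z : Q} (ha : A3 L x y z) : A3 L z x y :=
  h.k_231 k (h.k_231 k ha)

/-- `th(b, a) = th(a, b)⁻¹` -/
theorem k_anti (h : AL0 G L J e) (a b : Q) : Th L J b a = (Th L J a b)⁻¹ := by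
  rw [← h.Th_inv]
  have h1 : Th L J b a * L b = L b * Th L J b a := h.comL (h.Th_mem _ _) (h.Th_e _ _) (h.k_fst k _ _)
  have h2 : Th L J b a * Rt L J a = Rt L J a * Th L J b a :=
    h.comR (h.Th_mem _ _) (h.Th_e _ _) (k _ _)
  have h3 : Th L J (J b) (J a) = (Rt L J a * L b) * Th L J b a * (Rt L J a * L b)⁻¹ := by
    unfold Th
    rw [h.k_L k, h.k_R k]
    group
  rw [h3]
  calc Th L J b a = (Th L J b a * Rt L J a) * (L b) * (Rt L J a * L b)⁻¹ := by group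
    _ = Rt L J a * (Th L J b a * L b) * (Rt L J a * L b)⁻¹ := by rw [h2]; group
    _ = _ := by rw [h1]; group

/-- (MM) -/
theorem k_MM (h : AL0 G L J e) {x y m : Q} (ha : A3 L x y m) :
    Th L J (L x y) m = Th L J x m * Th L J y m := by
  have hP := h.Ph_mem x y
  have hPe := h.Ph_e x y
  have hPm : Ph L x y m = m := (h.a3_ph x y m).1 ha
  have hPx : Ph L x y x = x := (h.a3_ph x y x).1 (h.k_aba x y)
  have hPy : Ph L x y y = y := (h.a3_ph x y y).1 (h.k_aa k x y)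
  have c1 : Ph L x y * Rt L J m = Rt L J m * Ph L x y := h.comR hP hPe hPm
  have c2 := h.Th_com61 hP hPe hPx hPm
  have c3 := h.Th_com61 hP hPe hPy hPm
  have c4 : Th L J x m * L y = L y * Th L J x m :=
    h.comL (h.Th_mem _ _) (h.Th_e _ _) ((h.a3_th x y m).1 ha)
  have e1 : L (L x y) = L x * L y * (Ph L x y)⁻¹ := by unfold Ph; group
  have e2 : ∀ z, (Rt L J m)⁻¹ * L z * Rt L J m = L z * Th L J z m := by
    intro z; unfold Th; group
  have c1' : (Ph L x y)⁻¹ * Rt L J m = Rt L J m * (Ph L x y)⁻¹ := by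
    calc (Ph L x y)⁻¹ * Rt L J m = (Ph L x y)⁻¹ * (Rt L J m * Ph L x y) * (Ph L x y)⁻¹ := by group
      _ = _ := by rw [← c1]; group
  calc Th L J (L x y) m =
      (L (L x y))⁻¹ * ((Rt L J m)⁻¹ * (L x * L y * (Ph L x y)⁻¹) * Rt L J m) := by
        rw [← e1]; unfold Th; group
    _ = (L (L x y))⁻¹ * ((Rt L J m)⁻¹ * L x * L y * ((Ph L x y)⁻¹ * Rt L J m)) := by group
    _ = (L (L x y))⁻¹ * (((Rt L J m)⁻¹ * L x * Rt L J m) * ((Rt L J m)⁻¹ * L y * Rt L J m) *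
        (Ph L x y)⁻¹) := by rw [c1']; group
    _ = (L (L x y))⁻¹ * (L x * (Th L J x m * L y) * Th L J y m * (Ph L x y)⁻¹) := by
        rw [e2, e2]; group
    _ = Ph L x y * Th L J x m * Th L J y m * (Ph L x y)⁻¹ := by rw [c4]; unfold Ph; group
    _ = Th L J x m * (Ph L x y * Th L J y m) * (Ph L x y)⁻¹ := by rw [c2]; group
    _ = _ := by rw [c3]; group

/-! perpendicularity -/

theorem pp_symm (h : AL0 G L J e) {x y : Q} (hp : Pp L x y) : Pp L y x :=
  fun z => h.k_swap k (hp z)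

theorem pp_th (h : AL0 G L J e) {x y : Q} (hp : Pp L x y) : Th L J x y = 1 := by
  ext z
  exact (h.a3_th x z y).1 (h.k_132 k (hp z))

omit k in
theorem pp_L (_h : AL0 G L J e) {x y : Q} (hp : Pp L x y) : L (L x y) = L x * L y := by
  ext z
  exact hp z

theorem pp_of_th (h : AL0 G L J e) {x y : Q} (ht : Th L J x y = 1) : Pp L x y := by
  intro z
  refine h.k_132 k ((h.a3_th x z y).2 ?_)
  rw [ht]; rfl

theorem pp_mul (h : AL0 G L J e) {x y z : Q} (hy : Pp L x y) (hz : Pp L x z) :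
    Pp L x (L y z) := by
  intro w
  rw [h.a3_th, h.aut (h.Th_mem _ _) (h.Th_e _ _), (h.a3_th x y w).1 (hy w),
    (h.a3_th x z w).1 (hz w)]

theorem pp_J (h : AL0 G L J e) {x y : Q} (hy : Pp L x y) : Pp L x (J y) :=
  fun w => h.a3_J2 (hy w)

theorem pp_self (h : AL0 G L J e) (x : Q) : Pp L x x := fun z => h.k_ab k x z

omit k in
theorem pp_e (h : AL0 G L J e) (x : Q) : Pp L x e := by
  intro z
  unfold A3
  rw [h.Le, h.L_e61, Perm.one_apply]

omit k in
theorem pp_map (h : AL0 G L J e) {g : Perm Q} (hg : g ∈ G) (he : g e = e) {x y : Q}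
    (hp : Pp L x y) : Pp L (g x) (g y) := by
  intro z
  obtain ⟨w, rfl⟩ : ∃ w, z = g w := ⟨g⁻¹ z, (apply_inv' _ _).symm⟩
  unfold A3
  rw [← h.aut hg he, ← h.aut hg he, ← h.aut hg he, ← h.aut hg he,
    (show L (L x y) w = L x (L y w) from hp w)]

end

end AL0

end ALoop
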