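import Pool.Agent.H61.O1.A

set_option autoImplicit false

/-!
K7 loops: `th(s(a, b), c)` is alternating in `a`, `b`, `c`.
-/

namespace ALoop

open Equiv

variable {Q : Type*} {G : Subgroup (Perm Q)} {L : Q → Perm Q} {J : Perm Q} {e : Q}

/-- the commutator `x \ (T_u x)` -/
def sc (L : Q → Perm Q) (J : Perm Q) (u x : Q) : Q := (L x)⁻¹ (Tx L J u x)

namespace AL0

theorem sc_L (_h : AL0 G L J e) (u x : Q) : L x (sc L J u x) = Tx L J u x := by
  unfold sc
  rw [apply_inv']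

theorem Tx_mul61 (h : AL0 G L J e) (c z : Q) : L (Tx L J c z) c = L c z := by
  rw [← h.Rt_app c (Tx L J c z)]
  have h1 : Rt L J c * Tx L J c = L c := by
    rw [← h.Tx_R]; unfold Tx; group
  rw [← Perm.mul_apply, h1]

theorem sc_p1 (h : AL0 G L J e) (u x : Q) : Pp L x (sc L J u x) := by
  have h1 := h.N3 u x
  unfold Nsp at h1
  intro z
  exact (congrArg (fun p : Perm Q => p z) h1).symm

theorem sc_p2 (h : AL0 G L J e) (u x : Q) : Pp L u (sc L J u x) := by
  have h1 := h.N4 u x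
  unfold Nsp at h1
  intro z
  exact (congrArg (fun p : Perm Q => p z) h1).symm

theorem sc_map (h : AL0 G L J e) {g : Perm Q} (hg : g ∈ G) (he : g e = e) (u x : Q) :
    g (sc L J u x) = sc L J (g u) (g x) := by
  have h1 : L (g x) (g (sc L J u x)) = Tx L J (g u) (g x) := by
    rw [← h.aut hg he, h.sc_L]
    have h2 : L (g (Tx L J u x)) (g u) = L (g u) (g x) := by
      rw [← h.aut hg he, h.Tx_mul61, h.aut hg he]
    have h3 := h.Tx_mul61 (g u) (g x)
    rw [← h3, ← h.Rt_app, ← h.Rt_app] at h2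
    exact (Rt L J (g u)).injective h2
  have h4 := h.sc_L (g u) (g x)
  rw [← h4] at h1
  exact (L (g x)).injective h1

theorem Tx_map (h : AL0 G L J e) {g : Perm Q} (hg : g ∈ G) (he : g e = e) {c : Q}
    (hc : g c = c) : g * Tx L J c = Tx L J c * g := by
  have h1 := h.comL hg he hc
  have h2 := h.comR hg he hc
  unfold Tx
  calc g * (L c * (Rt L J c)⁻¹) = (g * L c) * (Rt L J c)⁻¹ := by group
    _ = L c * (Rt L J c)⁻¹ * (Rt L J c * g) * (Rt L J c)⁻¹ := by rw [h1]; group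
    _ = _ := by rw [← h2]; group

theorem Tx_map' (h : AL0 G L J e) {g : Perm Q} (hg : g ∈ G) (he : g e = e) {c : Q}
    (hc : g c = c) (z : Q) : g ((Tx L J c)⁻¹ z) = (Tx L J c)⁻¹ (g z) := by
  have h1 := h.Tx_map hg he hc
  rw [Equiv.Perm.eq_inv_iff_eq, ← Perm.mul_apply, ← h1, Perm.mul_apply, apply_inv']

section

variable (k : ∀ a b, Th L J a b b = b)

include k

/-- invariance (i) -/
theorem inv_i (h : AL0 G L J e) {s b : Q} (hb : Pp L s b) (c : Q) :
    Th L J ((Tx L J c)⁻¹ s) b = 1 := by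
  have hT := h.Tx_mem c
  have hTe := h.Tx_e c
  have h1 : Th L J ((Tx L J c)⁻¹ s) b = (Tx L J c)⁻¹ * Th L J s (Tx L J c b) * Tx L J c := by
    have h2 := h.Th_conj61 hT hTe ((Tx L J c)⁻¹ s) b
    rw [apply_inv'] at h2
    rw [← h2]; group
  have hcs : Th L J c s (Tx L J c b) = Tx L J c b := by
    have g1 := h.Th_mem c s
    have g2 := h.Th_e c s
    have g3 := h.k_fst k c s
    have g4 : Th L J c s b = b := (h.a3_th c b s).1 (h.k_312 k (h.k_swap k (hb c)))
    have g5 := congrArg (fun p : Perm Q => p b) (h.Tx_map g1 g2 g3)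
    simp only [Perm.mul_apply] at g5
    rw [g5, g4]
  have m1 : Th L J (L (Tx L J c b) c) s = Th L J (Tx L J c b) s * Th L J c s :=
    h.k_MM k (h.k_swap k ((h.a3_th _ _ _).2 hcs))
  have m2 : Th L J (L c b) s = Th L J c s * Th L J b s :=
    h.k_MM k (h.k_312 k (h.k_swap k (hb c)))
  have hbs : Th L J b s = 1 := h.pp_th k (h.pp_symm k hb)
  rw [h.Tx_mul61, m2, hbs, mul_one] at m1
  have m3 : Th L J (Tx L J c b) s = 1 := by
    have := m1.symm
    rwa [mul_eq_right] at this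
  have m4 : Th L J s (Tx L J c b) = 1 := by rw [h.k_anti k, m3, inv_one]
  rw [h1, m4]; group

/-- invariance (ii) -/
theorem inv_ii (h : AL0 G L J e) {s a : Q} (ha : Pp L s a) (c : Q) :
    Th L J ((Tx L J a)⁻¹ s) c = Th L J s c := by
  have hT := h.Tx_mem a
  have hTe := h.Tx_e a
  have h1 : Th L J ((Tx L J a)⁻¹ s) c = (Tx L J a)⁻¹ * Th L J s (Tx L J a c) * Tx L J a := by
    have h2 := h.Th_conj61 hT hTe ((Tx L J a)⁻¹ s) c
    rw [apply_inv'] at h2
    rw [← h2]; group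
  have has : Th L J a s = 1 := h.pp_th k (h.pp_symm k ha)
  have m1 : Th L J (L (Tx L J a c) a) s = Th L J (Tx L J a c) s * Th L J a s :=
    h.k_MM k (h.k_swap k (h.k_132 k (h.k_swap k (ha _))))
  have m2 : Th L J (L a c) s = Th L J a s * Th L J c s :=
    h.k_MM k (h.k_231 k (ha c))
  rw [h.Tx_mul61, m2, has, mul_one, one_mul] at m1
  have m4 : Th L J s (Tx L J a c) = Th L J s c := by
    rw [h.k_anti k (Tx L J a c) s, ← m1, ← h.k_anti k]
  have g1 := h.Th_mem s c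
  have g2 := h.Th_e s c
  have g3 : Th L J s c a = a := (h.a3_th _ _ _).1 (ha c)
  have g4 := h.Tx_map g1 g2 g3
  rw [h1, m4, mul_assoc, g4]; group

/-- (E1) -/
theorem E1 (h : AL0 G L J e) (a b c : Q) :
    Th L J (sc L J a b) c * Th L J (sc L J a c) b = 1 := by
  obtain ⟨s, hs⟩ : ∃ s, s = sc L J a b := ⟨_, rfl⟩
  obtain ⟨s', hs'⟩ : ∃ s', s' = sc L J a c := ⟨_, rfl⟩
  obtain ⟨r, hr⟩ : ∃ r, r = (Tx L J c)⁻¹ s := ⟨_, rfl⟩
  obtain ⟨m, hm⟩ : ∃ m, m = L b c := ⟨_, rfl⟩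
  have p1 : Pp L s b := by rw [hs]; exact h.pp_symm k (h.sc_p1 a b)
  have p2 : Pp L s a := by rw [hs]; exact h.pp_symm k (h.sc_p2 a b)
  have p3 : Pp L s' c := by rw [hs']; exact h.pp_symm k (h.sc_p1 a c)
  have p4 : Pp L s' a := by rw [hs']; exact h.pp_symm k (h.sc_p2 a c)
  -- `th(s', b)` fixes `a, b, c`, so `r`
  have f1 : Th L J s' b r = r := by
    have g1 := h.Th_mem s' b
    have g2 := h.Th_e s' b
    have ga : Th L J s' b a = a := (h.a3_th _ _ _).1 (p4 b)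
    have gc : Th L J s' b c = c := (h.a3_th _ _ _).1 (p3 b)
    have gb : Th L J s' b b = b := k _ _
    rw [hr, h.Tx_map' g1 g2 gc, hs, h.sc_map g1 g2, ga, gb]
  have A1 : A3 L s' r b := (h.a3_th _ _ _).2 f1
  have A2 : A3 L s' r c := h.k_132 k (p3 r)
  have A3' : A3 L s' m r := by
    rw [h.a3_th, hm, h.aut (h.Th_mem _ _) (h.Th_e _ _),
      (h.a3_th s' b r).1 (h.k_132 k A1), (h.a3_th s' c r).1 (p3 r)]
  have f2 : Th L J b c r = r := by
    rw [hr, h.Tx_map' (h.Th_mem b c) (h.Th_e b c) (k b c),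
      (h.a3_th b s c).1 (h.k_swap k (p1 c))]
  have A4 : A3 L b c r := h.k_132 k ((h.a3_th b r c).2 f2)
  have A5 : A3 L b s c := h.k_swap k (p1 c)
  have e1 : L s c = L c r := by
    have h1 := h.Tx_mul61 c r
    rwa [hr, apply_inv', ← hr] at h1
  have e2 : sc L J a m = L r s' := by
    have h1 : L m (sc L J a m) = L m (L r s') := by
      rw [h.sc_L]
      nth_rewrite 1 [hm]
      rw [h.aut (h.Tx_mem a) (h.Tx_e a), ← h.sc_L a b, ← h.sc_L a c, ← hs, ← hs']
      have q1 : A3 L (L b s) c s' := h.k_swap k (h.k_231 k (h.k_swap k (h.k_swap k (p3 (L b s)))))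
      have q2 : A3 L m r s' := h.k_231 k A3'
      rw [← (show L (L (L b s) c) s' = L (L b s) (L c s') from q1),
        (show L (L b s) c = L b (L s c) from A5), e1,
        ← (show L (L b c) r = L b (L c r) from A4), ← hm]
      exact q2
    exact (L m).injective h1
  have B : Th L J (L r s') m = 1 := by
    rw [← e2]; exact h.pp_th k (h.pp_symm k (h.sc_p1 a m))
  have C : Th L J (L r s') m = Th L J r m * Th L J s' m := by
    refine h.k_MM k ?_
    -- A3 r s' m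
    exact h.k_swap k (h.k_132 k A3')
  have D : Th L J s' m = Th L J s' b := by
    have d1 : Th L J (L b c) s' = Th L J b s' * Th L J c s' :=
      h.k_MM k (h.k_swap k (h.k_132 k (h.k_swap k (p3 b))))
    have d2 : Th L J c s' = 1 := h.pp_th k (h.pp_symm k p3)
    rw [h.k_anti k m s', hm, d1, d2, mul_one, ← h.k_anti k]
  have E : Th L J r m = Th L J s c := by
    have d1 : Th L J (L b c) r = Th L J b r * Th L J c r := h.k_MM k A4
    have d2 : Th L J r b = 1 := by rw [hr]; exact h.inv_i k p1 c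
    have d3 : Th L J b r = 1 := by rw [h.k_anti k r b, d2, inv_one]
    have d4 : Th L J r c = Th L J s c := by
      have h2 := h.Th_conj61 (h.Tx_mem c) (h.Tx_e c) r c
      rw [h.Tx_x, hr, apply_inv', ← hr] at h2
      have h3 := h.Tx_map (h.Th_mem s c) (h.Th_e s c) (k s c)
      rw [mul_inv_eq_iff_eq_mul] at h2
      rw [h3] at h2
      exact mul_left_cancel h2
    rw [h.k_anti k m r, hm, d1, d3, one_mul, ← h.k_anti k, d4]
  rw [C, D, E] at B
  rw [← hs, ← hs']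
  exact B

/-- `s(b⁻¹, a) = T_a⁻¹ s(a, b)` -/
theorem sc_J1 (h : AL0 G L J e) (a b : Q) :
    sc L J (J b) a = (Tx L J a)⁻¹ (sc L J a b) := by
  obtain ⟨s, hs⟩ : ∃ s, s = sc L J a b := ⟨_, rfl⟩
  have p1 : Pp L b s := by rw [hs]; exact h.sc_p1 a b
  have h1 : L s a = (Tx L J b)⁻¹ a := by
    have h2 : L b (L s a) = L a b := by
      rw [← (show L (L b s) a = L b (L s a) from p1 a), hs, h.sc_L, h.Tx_mul61]
    have h3 := h.Tx_mul61 b ((Tx L J b)⁻¹ a)
    rw [apply_inv'] at h3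
    rw [h3] at h2
    exact (L b).injective h2
  have h4 := h.Tx_mul61 a ((Tx L J a)⁻¹ s)
  rw [apply_inv'] at h4
  have h5 : L a (sc L J (J b) a) = L a ((Tx L J a)⁻¹ s) := by
    rw [h.sc_L, h.Tx_inv, ← h1, h4]
  rw [← hs]
  exact (L a).injective h5

theorem E2' (h : AL0 G L J e) (a b c : Q) :
    Th L J (sc L J (J b) a) c = Th L J (sc L J a b) c := by
  rw [h.sc_J1 k]
  exact h.inv_ii k (h.pp_symm k (h.sc_p2 a b)) c

theorem Th_Jl (h : AL0 G L J e) (n c : Q) : Th L J (J n) c = (Th L J n c)⁻¹ := by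
  have h1 : Th L J (L (J n) n) c = Th L J (J n) c * Th L J n c := by
    refine h.k_MM k ?_
    unfold A3
    rw [h.JL, h.L_e61, h.k_L k, inv_apply', Perm.one_apply]
  rw [h.JL] at h1
  have h2 : Th L J e c = 1 := by unfold Th; rw [h.L_e61]; group
  rw [h2] at h1
  exact (inv_eq_of_mul_eq_one_left h1.symm).symm

/-- (E2) -/
theorem E2 (h : AL0 G L J e) (a b c : Q) :
    Th L J (sc L J b a) c = (Th L J (sc L J a b) c)⁻¹ := by
  obtain ⟨n, hn⟩ : ∃ n, n = sc L J b a := ⟨_, rfl⟩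
  have p1 : Pp L a n := by rw [hn]; exact h.sc_p1 b a
  have p2 : Pp L b n := by rw [hn]; exact h.sc_p2 b a
  have h1 : sc L J (J b) a = (Tx L J b)⁻¹ (J n) := by
    rw [Equiv.Perm.eq_inv_iff_eq]
    have h2 : L (Tx L J b a) (Tx L J b (sc L J (J b) a)) = a := by
      rw [← h.aut (h.Tx_mem b) (h.Tx_e b), h.sc_L, h.Tx_inv, apply_inv']
    have h3 : L (Tx L J b a) (J n) = a := by
      rw [← h.sc_L b a, ← hn, h.pp_L p1, Perm.mul_apply, h.LJ, h.Le]
    exact (L (Tx L J b a)).injective (h2.trans h3.symm)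
  have h2 := h.E2' k a b c
  rw [h1, h.inv_ii k (h.pp_symm k (h.pp_J k p2)) c, h.Th_Jl k] at h2
  rw [← hn, ← h2, inv_inv]

/-- `psi(a,b,c) = psi(b,c,a)` -/
theorem cyc (h : AL0 G L J e) (a b c : Q) :
    Th L J (sc L J a b) c = Th L J (sc L J b c) a := by
  have h1 := h.E2 k b a c
  have h2 := h.E1 k b a c
  rw [h1]
  exact (eq_inv_of_mul_eq_one_right h2).symm

/-- the square formula -/
theorem Ksq (h : AL0 G L J e) (a b m : Q) :
    Th L J (sc L J a b) m * Th L J (sc L J a b) m =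
      (Th L J m a)⁻¹ * Tx L J b * Th L J m a * (Tx L J b)⁻¹ := by
  obtain ⟨K, hK⟩ : ∃ K, K = Th L J (sc L J a b) m := ⟨_, rfl⟩
  have hKG : K ∈ G := by rw [hK]; exact h.Th_mem _ _
  have hKe : K e = e := by rw [hK]; exact h.Th_e _ _
  have hKb : K b = b := by
    rw [hK]; exact (h.a3_th _ _ _).1 (h.pp_symm k (h.sc_p1 a b) m)
  have hKa : K a = a := by
    rw [hK]; exact (h.a3_th _ _ _).1 (h.pp_symm k (h.sc_p2 a b) m)
  have hKm : K m = m := by rw [hK]; exact k _ _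
  have c1 := h.Tx_map hKG hKe hKb
  have c2 := h.Th_com61 hKG hKe hKm hKa
  -- (i), (ii)
  have i1 : K = Th L J (sc L J b m) a := by rw [hK]; exact h.cyc k a b m
  have i2 : Th L J (Tx L J b m) a = Th L J m a * K := by
    rw [← h.sc_L b m, i1]
    exact h.k_MM k (h.sc_p1 b m a)
  -- (iii)
  have i3 : Th L J (Tx L J b m) a = Tx L J b * Th L J m ((Tx L J b)⁻¹ a) * (Tx L J b)⁻¹ := by
    rw [h.Th_conj61 (h.Tx_mem b) (h.Tx_e b), apply_inv']
  -- (iv)
  have i4 : Th L J m ((Tx L J b)⁻¹ a) = Th L J m a * K⁻¹ := by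
    have j1 : (Tx L J b)⁻¹ a = L a (sc L J (J b) a) := by rw [h.sc_L, h.Tx_inv]
    have j2 : Th L J (L a (sc L J (J b) a)) m = Th L J a m * K := by
      rw [h.k_MM k (h.sc_p1 (J b) a m), h.E2' k, ← hK]
    have c3 := h.Th_com61 hKG hKe hKa hKm
    rw [j1, h.k_anti k (L a (sc L J (J b) a)) m, j2, ← c3, mul_inv_rev, h.k_anti k a m]
  rw [i2, i4] at i3
  rw [← hK]
  -- `th(m,a) K = T_b th(m,a) K⁻¹ T_b⁻¹`
  have c1' : K⁻¹ * (Tx L J b)⁻¹ = (Tx L J b)⁻¹ * K⁻¹ := by
    rw [← mul_inv_rev, ← c1, mul_inv_rev]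
  have i5 : Th L J m a * K * K = Tx L J b * Th L J m a * (Tx L J b)⁻¹ := by
    rw [i3]
    calc Tx L J b * (Th L J m a * K⁻¹) * (Tx L J b)⁻¹ * K =
        Tx L J b * Th L J m a * (K⁻¹ * (Tx L J b)⁻¹) * K := by group
      _ = _ := by rw [c1']; group
  calc K * K = (Th L J m a)⁻¹ * (Th L J m a * K * K) := by group
    _ = _ := by rw [i5]; group

/-- `K⁴ = 1` for `K = th(s(a,b), s(c,d))` -/
theorem K4 (h : AL0 G L J e) (a b c d : Q) :
    (Th L J (sc L J a b) (sc L J c d)) ^ 4 = 1 := by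
  obtain ⟨f, hf⟩ : ∃ f : Q → Q → Q → Q → Perm Q, ∀ a b c d, f a b c d =
      Th L J (sc L J a b) (sc L J c d) * Th L J (sc L J a b) (sc L J c d) :=
    ⟨fun a b c d => _, fun a b c d => rfl⟩
  have r1 : ∀ a b c d, f a b c d = f c b d a := by
    intro a b c d
    rw [hf, hf, h.Ksq k, h.Ksq k, h.cyc k c d a]
  have r2 : ∀ a b c d, f b a c d = (f a b c d)⁻¹ := by
    intro a b c d
    rw [hf, hf, h.E2 k a b, mul_inv_rev]
  have r3 : ∀ a b c d, f c d a b = (f a b c d)⁻¹ := by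
    intro a b c d
    rw [hf, hf, h.k_anti k (sc L J a b) (sc L J c d), mul_inv_rev]
  have h1 : f a b c d = (f a b c d)⁻¹ := by
    calc f a b c d = f c b d a := r1 _ _ _ _
      _ = (f b c d a)⁻¹ := r2 _ _ _ _
      _ = (f d c a b)⁻¹ := by rw [r1 b c d a]
      _ = f c d a b := by rw [r2 c d a b, inv_inv]
      _ = (f a b c d)⁻¹ := r3 _ _ _ _
  have h2 : f a b c d * f a b c d = 1 := by
    nth_rewrite 1 [h1]
    group
  rw [hf] at h2
  calc _ = _ := by
        rw [show (4 : ℕ) = 2 + 2 by norm_num, pow_add, pow_two]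
    _ = 1 := h2

end

end AL0

end ALoop
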