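import Pool.Agent.H61.O1.B

set_option autoImplicit false

/-!
The end game of case O1: a simple automorphic loop of odd order in which `th(a, b)` fixes `b` for
all `a`, `b` is commutative or associative.
-/

namespace ALoop

open Equiv

variable {Q : Type*} {G : Subgroup (Perm Q)} {L : Q → Perm Q} {J : Perm Q} {e : Q}

namespace AL0

section

variable (k : ∀ a b, Th L J a b b = b)

include k

/-- the powers of `L a` are left translations -/
theorem L_pow61 (h : AL0 G L J e) (a : Q) (n : ℕ) :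
    Pp L a ((L a ^ n) e) ∧ L ((L a ^ n) e) = L a ^ n := by
  induction n with
  | zero =>
    rw [pow_zero, Perm.one_apply]
    exact ⟨h.pp_e a, h.L_e61⟩
  | succ n ih =>
    obtain ⟨h1, h2⟩ := ih
    rw [pow_succ', Perm.mul_apply]
    exact ⟨h.pp_mul k (h.pp_self k a) h1, by rw [h.pp_L h1, h2]⟩

/-- `L a` has odd order -/
theorem L_odd61 [Finite Q] (h : AL0 G L J e) (hodd : Odd (Nat.card Q)) (a : Q) :
    Odd (orderOf (L a)) := by
  classical
  have := Fintype.ofFinite Q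
  by_contra h1
  rw [Nat.not_odd_iff_even, even_iff_two_dvd] at h1
  obtain ⟨n, hn⟩ := h1
  have hpos := orderOf_pos (L a)
  obtain ⟨g, hg⟩ : ∃ g, g = L a ^ n := ⟨_, rfl⟩
  have hgg : g ^ 2 ^ 1 = 1 := by
    rw [hg, pow_one, ← pow_mul, mul_comm, ← hn, pow_orderOf_eq_one]
  have hc : ¬ 2 ∣ Fintype.card Q := by
    rw [← Nat.card_eq_fintype_card]
    exact fun h2 => (Nat.not_even_iff_odd.2 hodd) (even_iff_two_dvd.2 h2)
  have : Fact (Nat.Prime 2) := ⟨Nat.prime_two⟩
  obtain ⟨x, hx⟩ := Equiv.Perm.exists_fixed_point_of_prime hc hgg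
  obtain ⟨-, h3⟩ := h.L_pow61 k a n
  rw [← hg] at h3
  have h4 : g e = e := by
    rw [← h3, ← h.Rt_app] at hx
    have h5 : Rt L J x e = x := h.Rt_e x
    exact (Rt L J x).injective (hx.trans h5.symm)
  have h6 : g = 1 := by rw [← h3, h4, h.L_e61]
  have h7 : orderOf (L a) ∣ n := orderOf_dvd_of_pow_eq_one (by rw [← hg, h6])
  have h8 : 0 < n := by omega
  have h9 := Nat.le_of_dvd h8 h7
  omega

/-- `th(a, b)` has odd order -/
theorem Th_odd61 [Finite Q] (h : AL0 G L J e) (hodd : Odd (Nat.card Q)) (a b : Q) :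
    ∃ n, Odd n ∧ (Th L J a b) ^ n = 1 := by
  refine ⟨orderOf (L a), h.L_odd61 k hodd a, ?_⟩
  have h1 : Commute (L a) (Th L J a b) :=
    (h.comL (h.Th_mem a b) (h.Th_e a b) (h.k_fst k a b)).symm
  have h2 : (Rt L J b)⁻¹ * L a * Rt L J b = L a * Th L J a b := by unfold Th; group
  have h3 := h1.mul_pow (orderOf (L a))
  rw [← h2, pow_orderOf_eq_one, one_mul] at h3
  rw [← h3]
  have h4 := conj_pow (i := orderOf (L a)) (a := (Rt L J b)⁻¹) (b := L a)
  rw [inv_inv, pow_orderOf_eq_one] at h4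
  rw [h4]; group

/-- all commutators are pairwise perpendicular -/
theorem sc_sc [Finite Q] (h : AL0 G L J e) (hodd : Odd (Nat.card Q)) (a b c d : Q) :
    Pp L (sc L J a b) (sc L J c d) := by
  apply h.pp_of_th k
  obtain ⟨n, hn, h1⟩ := h.Th_odd61 k hodd (sc L J a b) (sc L J c d)
  have h2 := h.K4 k a b c d
  have h3 : orderOf (Th L J (sc L J a b) (sc L J c d)) ∣ n := orderOf_dvd_of_pow_eq_one h1
  have h4 : orderOf (Th L J (sc L J a b) (sc L J c d)) ∣ 4 := orderOf_dvd_of_pow_eq_one h2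
  have h5 : Nat.Coprime n 4 := by
    rw [show (4 : ℕ) = 2 ^ 2 by norm_num]
    exact (Nat.Coprime.pow_right 2 (Nat.coprime_two_right.2 hn))
  have h6 : orderOf (Th L J (sc L J a b) (sc L J c d)) ∣ 1 := by
    rw [← h5]
    exact Nat.dvd_gcd h3 h4
  rw [Nat.dvd_one] at h6
  exact orderOf_eq_one_iff.1 h6

end

end AL0

namespace AL

/-- END GAME of case O1 from K7 -/
theorem assoc_of_K7 [Finite Q] (h : AL G L J e) (hodd : Odd (Nat.card Q))
    (k : ∀ a b, Th L J a b b = b) (hnc : ¬ ∀ x y, L x y = L y x) : Assoc L := by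
  have h0 := h.al0
  push Not at hnc
  obtain ⟨x, u, hxu⟩ := hnc
  have hse : sc L J u x ≠ e := by
    intro h1
    have h2 := h0.sc_L u x
    rw [h1, h.Le] at h2
    have h3 := h0.Tx_mul61 u x
    rw [← h2] at h3
    exact hxu h3
  obtain ⟨U, hU⟩ : ∃ U : Q → Prop, ∀ y, U y ↔ ∀ a b, Pp L (sc L J a b) y := ⟨_, fun _ => Iff.rfl⟩
  have hUe : U e := by
    rw [hU]; intro a b; exact h0.pp_e _
  have hUmul : ∀ y z, U y → U z → U (L y z) := by
    intro y z hy hz
    rw [hU] at *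
    intro a b
    exact h0.pp_mul k (hy a b) (hz a b)
  have hUJ : ∀ y, U y → U (J y) := by
    intro y hy
    rw [hU] at *
    intro a b
    exact h0.pp_J k (hy a b)
  have hUg : ∀ g ∈ G, g e = e → ∀ y, U y → U (g y) := by
    intro g hg he y hy
    rw [hU] at *
    intro a b
    have h1 := h0.pp_map hg he (hy (g⁻¹ a) (g⁻¹ b))
    rw [h0.sc_map hg he, apply_inv', apply_inv'] at h1
    exact h1
  have hUs : ∀ a b, U (sc L J a b) := by
    intro a b
    rw [hU]; intro c d
    exact h0.sc_sc k hodd c d a b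
  have hP : ∀ a u, U u → ∀ y, U y → U ((Ph L a u)⁻¹ y) := by
    intro a u _ y hy
    refine hUg _ (G.inv_mem (h0.Ph_mem a u)) ?_ y hy
    rw [Perm.inv_eq_iff_eq, h0.Ph_e]
  have hP' : ∀ a u, ∀ y, U y → U (Ph L a u y) := by
    intro a u y hy
    exact hUg _ (h0.Ph_mem a u) (h0.Ph_e a u) y hy
  have hL : ∀ a b, L b = L a * L ((L a)⁻¹ b) * (Ph L a ((L a)⁻¹ b))⁻¹ := by
    intro a b
    unfold Ph
    rw [apply_inv']; group
  have key := h.prim (fun a b => U ((L a)⁻¹ b)) ?_ ?_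
  · rcases key with h1 | h1
    · exfalso
      apply hse
      have h2 := h1 e (sc L J u x) (by rw [h0.L_e61]; simpa using hUs u x)
      exact h2.symm
    · have h2 : ∀ y, U y := by
        intro y
        have h3 := h1 e y
        rw [h0.L_e61] at h3
        simpa using h3
      refine h.assoc_of_mNuc (s := sc L J u x) ?_ hse
      intro v
      have h3 := (hU v).1 (h2 v) u x
      exact h0.pp_L (h0.pp_symm k h3)
  · refine ⟨?_, ?_, ?_⟩
    · intro a
      have h1 : (L a)⁻¹ a = e := by rw [Perm.inv_eq_iff_eq, h.Le]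
      rw [h1]
      exact hUe
    · intro a b hab
      have h1 : (L b)⁻¹ a = Ph L a ((L a)⁻¹ b) (J ((L a)⁻¹ b)) := by
        have h2 : (L ((L a)⁻¹ b))⁻¹ e = J ((L a)⁻¹ b) := h0.L_inv_e _
        have h3 : (L a)⁻¹ a = e := by rw [Perm.inv_eq_iff_eq, h.Le]
        rw [hL a b, mul_inv_rev, mul_inv_rev, inv_inv]
        simp only [Perm.mul_apply]
        rw [h3, h2]
      show U ((L b)⁻¹ a)
      rw [h1]
      exact hP' _ _ _ (hUJ _ hab)
    · intro a b c hab hbc
      have h1 : (L a)⁻¹ c = L ((L a)⁻¹ b) ((Ph L a ((L a)⁻¹ b))⁻¹ ((L b)⁻¹ c)) := by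
        have h2 : c = L b ((L b)⁻¹ c) := (apply_inv' _ _).symm
        nth_rewrite 1 [h2]
        nth_rewrite 1 [hL a b]
        simp only [Perm.mul_apply]
        rw [inv_apply']
      show U ((L a)⁻¹ c)
      rw [h1]
      exact hUmul _ _ hab (hP _ _ hab _ hbc)
  · intro g hg a b hab
    have h1 : (L (g a))⁻¹ * g * L a ∈ G := G.mul_mem (G.mul_mem (G.inv_mem (h.memL _)) hg) (h.memL _)
    have h2 : ((L (g a))⁻¹ * g * L a) e = e := by
      simp only [Perm.mul_apply]
      rw [h.Le, Perm.inv_eq_iff_eq, h.Le]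
    have h3 := hUg _ h1 h2 _ hab
    have h4 : ((L (g a))⁻¹ * g * L a) ((L a)⁻¹ b) = (L (g a))⁻¹ (g b) := by
      simp only [Perm.mul_apply, apply_inv']
    rw [h4] at h3
    exact h3

end AL

end ALoop
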